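import Pool.Agent.Y706.SB.Stm

/-!
# Project SB: the assembly (twists and levels)
-/

set_option autoImplicit false

namespace Pool.Agent.Y758.SB

open Polynomial Pool.Agent.Y706.SB Finset

universe u v w

section aff

variable {K : Type*} [Field K]

lemma aff_aff (y b y' b' : K) (hy : y ≠ 0) (f : K[X]) :
    aff y' b' (aff y b f) = aff (y * y') (y * b' + b) f := by
  unfold aff
  rw [mul_comp, sub_comp, C_comp, C_comp, comp_assoc]
  have h1 : (C y * X + C b).comp (C y' * X + C b') = C (y * y') * X + C (y * b' + b) := by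
    simp only [add_comp, mul_comp, C_comp, X_comp, C_mul, C_add]
    ring
  rw [h1]
  simp only [mul_inv, C_mul, C_add]
  have h2 : C y⁻¹ * C y = (1 : K[X]) := by
    rw [← C_mul, inv_mul_cancel₀ hy, C_1]
  linear_combination (C y'⁻¹ * C b') * h2

lemma aff_map {L : Type*} [Field L] (φ : K →+* L) (y b : K) (f : K[X]) :
    (aff y b f).map φ = aff (φ y) (φ b) (f.map φ) := by
  unfold aff
  rw [Polynomial.map_mul, Polynomial.map_sub, map_comp, Polynomial.map_add, Polynomial.map_mul,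
    map_C, map_C, map_C, map_X, map_inv₀]

lemma aff_eval (y b : K) (hy : y ≠ 0) (f : K[X]) (x : K) :
    (aff y b f).eval (y⁻¹ * (x - b)) = y⁻¹ * (f.eval x - b) := by
  unfold aff
  have h1 : y * (y⁻¹ * (x - b)) + b = x := by
    rw [mul_inv_cancel_left₀ hy]
    ring
  simp only [eval_mul, eval_C, eval_sub, eval_comp, eval_add, eval_X, h1]

lemma aff_natDegree (y b : K) (hy : y ≠ 0) (f : K[X]) : (aff y b f).natDegree = f.natDegree := by
  unfold aff
  have h1 : (C y * X + C b : K[X]).natDegree = 1 := natDegree_linear hy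
  rw [natDegree_C_mul (inv_ne_zero hy), natDegree_sub_C, natDegree_comp, h1, mul_one]

end aff

/-- a nonempty finite stable set contains a periodic point -/
lemma exists_per {X : Type*} (e : X → X) (D : Finset X) (hD : ∀ x ∈ D, e x ∈ D)
    (hne : D.Nonempty) : ∃ x ∈ D, ∃ m, 1 ≤ m ∧ e^[m] x = x := by
  obtain ⟨x, hx⟩ := hne
  have hit : ∀ n, e^[n] x ∈ D := by
    intro n
    induction n with
    | zero => exact hx
    | succ n ih => rw [Function.iterate_succ_apply']; exact hD _ ih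
  have hni : ¬ Function.Injective (fun n : ℕ => e^[n] x) := by
    intro hinj
    have h1 : (Set.range (fun n : ℕ => e^[n] x)).Infinite := Set.infinite_range_of_injective hinj
    apply h1
    refine D.finite_toSet.subset ?_
    rintro _ ⟨n, rfl⟩
    exact hit n
  unfold Function.Injective at hni
  push Not at hni
  obtain ⟨a, b, hab, hne⟩ := hni
  rcases lt_or_gt_of_ne hne with h | h
  · refine ⟨e^[a] x, hit a, b - a, by omega, ?_⟩
    rw [← Function.iterate_add_apply, Nat.sub_add_cancel h.le]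
    exact hab.symm
  · refine ⟨e^[b] x, hit b, a - b, by omega, ?_⟩
    rw [← Function.iterate_add_apply, Nat.sub_add_cancel h.le]
    exact hab

lemma pp_mono {L : Type*} [Field L] (p : ℕ) {r s : ℕ} (h : r ≤ s) {x : L}
    (hx : ∃ y, y ^ p ^ s = x) : ∃ y, y ^ p ^ r = x := by
  obtain ⟨y, rfl⟩ := hx
  refine ⟨y ^ p ^ (s - r), ?_⟩
  rw [← pow_mul, ← pow_add, Nat.sub_add_cancel h]

theorem t_ASM (hC : S_C1.{w}) (hAR : S_AR.{w}) : S_ASM.{u, w} := by
  classical
  intro p hp k L _ _ _ _ d N M hd2 hdp hN hPA hPB hk f P hfd hst hiso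
  by_contra hcon
  push Not at hcon
  have hN1 : N ≤ P.card := by nlinarith
  -- the property
  let St : ℕ → Prop := fun r => ∃ x₀ ∈ P, ∃ x₁ ∈ P, x₁ ≠ x₀ ∧
    ∀ m, ∃ y, y ^ p ^ r = (aff (x₁ - x₀) x₀ f).coeff m
  have hSt0 : St 0 := by
    obtain ⟨x₀, hx₀, x₁, hx₁, hne⟩ := Finset.one_lt_card.mp (by omega : 1 < P.card)
    exact ⟨x₀, hx₀, x₁, hx₁, Ne.symm hne, fun m => ⟨(aff (x₁ - x₀) x₀ f).coeff m,
      by rw [pow_zero, pow_one]⟩⟩
  have hfail : ∃ r, ¬ St r := by
    have h1 : ∀ q : L × L, q.2 ≠ q.1 → ∃ r, ¬ ∀ m, ∃ y, y ^ p ^ r =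
        (aff (q.2 - q.1) q.1 f).coeff m := by
      intro q hq
      by_contra hall
      push Not at hall
      apply hiso
      exact ⟨q.2 - q.1, q.1, sub_ne_zero.mpr hq, fun m => hk _ fun r => hall r m⟩
    choose! R hR using h1
    refine ⟨(P ×ˢ P).sup R, ?_⟩
    rintro ⟨x₀, hx₀, x₁, hx₁, hne, hc⟩
    refine hR (x₀, x₁) hne fun m => pp_mono p ?_ (hc m)
    exact Finset.le_sup (f := R) (Finset.mem_product.mpr ⟨hx₀, hx₁⟩)
  obtain ⟨r, hr, hr1⟩ : ∃ r, St r ∧ ¬ St (r + 1) := by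
    by_contra hall
    push Not at hall
    obtain ⟨r, hr⟩ := hfail
    apply hr
    clear hr
    induction r with
    | zero => exact hSt0
    | succ n ih => exact hall n ih
  obtain ⟨x₀, hx₀, x₁, hx₁, hne, hco⟩ := hr
  set y := x₁ - x₀ with hy
  have hy0 : y ≠ 0 := sub_ne_zero.mpr hne
  set F := aff y x₀ f with hF
  set P0 := P.image fun x => y⁻¹ * (x - x₀) with hP0
  have hinj : Function.Injective fun x : L => y⁻¹ * (x - x₀) := by
    intro a b hab
    have h1 := mul_left_cancel₀ (inv_ne_zero hy0) hab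
    exact sub_left_injective h1
  have hcard0 : P0.card = P.card := Finset.card_image_of_injective _ hinj
  have hst0 : ∀ z ∈ P0, F.eval z ∈ P0 := by
    intro z hz
    obtain ⟨x, hx, rfl⟩ := Finset.mem_image.mp hz
    rw [hF, aff_eval y x₀ hy0]
    exact Finset.mem_image.mpr ⟨f.eval x, hst x hx, rfl⟩
  have hFd : F.natDegree = d := by rw [hF, aff_natDegree y x₀ hy0 f, hfd]
  have h0P : (0 : L) ∈ P0 := by
    rw [hP0, Finset.mem_image]
    exact ⟨x₀, hx₀, by simp⟩
  have h1P : (1 : L) ∈ P0 := by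
    rw [hP0, Finset.mem_image]
    exact ⟨x₁, hx₁, inv_mul_cancel₀ hy0⟩
  have : ExpChar L p := ExpChar.prime hp.out
  let φ : ℕ → L →+* L := fun j => iterateFrobenius L p j
  have hφ : ∀ j x, φ j x = x ^ p ^ j := fun j x => iterateFrobenius_def p j x
  have hφi : ∀ j, Function.Injective (φ j) := fun j => (φ j).injective
  obtain ⟨h, hh⟩ : ∃ h : L[X], h.map (φ r) = F := by
    rw [← Polynomial.mem_lifts, Polynomial.lifts_iff_coeff_lifts]
    intro m
    obtain ⟨z, hz⟩ := hco m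
    exact ⟨z, by rw [hφ, hz]⟩
  have hφadd : ∀ i j, (φ i).comp (φ j) = φ (i + j) := by
    intro i j
    ext x
    rw [RingHom.comp_apply, hφ, hφ, hφ, ← pow_mul, ← pow_add, add_comm]
  let hj : ℕ → L[X] := fun j => h.map (φ j)
  have hjd : ∀ j, (hj j).natDegree = d := by
    intro j
    rw [natDegree_map, ← hFd, ← hh, natDegree_map]
  have hjF : ∀ j ≤ r, (hj j).map (φ (r - j)) = F := by
    intro j hj
    rw [Polynomial.map_map, hφadd, Nat.sub_add_cancel hj, hh]
  have hj0 : hj 0 = h := by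
    have : φ 0 = RingHom.id L := by
      ext x
      rw [hφ, pow_zero, pow_one, RingHom.id_apply]
    show h.map (φ 0) = h
    rw [this, Polynomial.map_id]
  have hisoj : ∀ j ≤ r, ¬ Iso k (hj j) := by
    rintro j hjr ⟨y', b', hy', hc'⟩
    apply hiso
    have e1 : aff (φ (r - j) y') (φ (r - j) b') F =
        aff (y * φ (r - j) y') (y * φ (r - j) b' + x₀) f := by rw [hF, aff_aff y x₀ _ _ hy0]
    refine ⟨y * φ (r - j) y', y * φ (r - j) b' + x₀, mul_ne_zero hy0 ?_, fun m => ?_⟩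
    · rw [Ne, map_eq_zero]; exact hy'
    · rw [← e1, ← hjF j hjr, ← aff_map, coeff_map]
      obtain ⟨c, hc⟩ := hc' m
      exact ⟨c ^ p ^ (r - j), by rw [map_pow, hc, hφ]⟩
  let Cc : ℕ → Finset L := fun j => P0.preimage (φ (r - j)) (hφi _).injOn
  have hCm : ∀ j x, x ∈ Cc j ↔ φ (r - j) x ∈ P0 := fun j x => Finset.mem_preimage
  have hCst : ∀ j ≤ r, ∀ x ∈ Cc j, (hj j).eval x ∈ Cc j := by
    intro j hjr x hx
    rw [hCm] at hx ⊢
    have := hst0 _ hx
    rwa [← hjF j hjr, eval_map_apply] at this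
  have hC01 : (0 : L) ∈ Cc 0 ∧ (1 : L) ∈ Cc 0 := by
    constructor
    · rw [hCm, map_zero]; exact h0P
    · rw [hCm, map_one]; exact h1P
  let Dd : ℕ → Finset L := fun j => (Cc j).filter (fun x => ∀ z, z ^ p ≠ x)
  have hpj : ∀ j, 1 ≤ j → ∀ m, ∃ z, z ^ p = (hj j).coeff m := by
    intro j h1 m
    refine ⟨(h.coeff m) ^ p ^ (j - 1), ?_⟩
    rw [coeff_map, hφ, ← pow_mul, ← pow_succ, Nat.sub_add_cancel h1]
  have hDst : ∀ j, 1 ≤ j → j ≤ r → ∀ x ∈ Dd j, (hj j).eval x ∈ Dd j := by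
    intro j h1 hjr x hx
    rw [Finset.mem_filter] at hx ⊢
    refine ⟨hCst j hjr x hx.1, fun z hz => ?_⟩
    obtain ⟨z', hz'⟩ := hC p L (hj j) x (by rw [hjd]; omega) (by rw [hjd]; omega) (hpj j h1)
      ⟨z, hz⟩
    exact hx.2 z' hz'
  -- (a)
  have ha : ∀ j, 1 ≤ j → j ≤ r → (Dd j).card < N := by
    intro j h1 hjr
    by_contra hge
    push Not at hge
    obtain ⟨u₀, hu₀, u₁, hu₁, hune, huc, -⟩ := hPA (hj j) (Dd j) (hjd j) (hDst j h1 hjr)
      (hisoj j hjr) hge
    obtain ⟨-, z, hz⟩ := hAR p L (hj j) (u₁ - u₀) u₀ (sub_ne_zero.mpr hune) (by rw [hjd]; omega)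
      (by rw [hjd]; omega) (hpj j h1) huc
    exact (Finset.mem_filter.mp hu₀).2 z hz
  -- (b)
  have hb : (Cc 0).card < N := by
    by_contra hge
    push Not at hge
    obtain ⟨u₀, hu₀, u₁, hu₁, hune, huc, -⟩ := hPA (hj 0) (Cc 0) (hjd 0) (hCst 0 (Nat.zero_le _))
      (hisoj 0 (Nat.zero_le _)) hge
    rw [hj0] at huc
    rw [hCm, Nat.sub_zero, hP0, Finset.mem_image] at hu₀ hu₁
    obtain ⟨X₀, hX₀, e₀⟩ := hu₀
    obtain ⟨X₁, hX₁, e₁⟩ := hu₁
    have e₀' : X₀ = y * φ r u₀ + x₀ := by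
      rw [← e₀, mul_inv_cancel_left₀ hy0]; ring
    have e₁' : X₁ = y * φ r u₁ + x₀ := by
      rw [← e₁, mul_inv_cancel_left₀ hy0]; ring
    have e2 : X₁ - X₀ = y * φ r (u₁ - u₀) := by
      rw [e₀', e₁', map_sub]; ring
    apply hr1
    refine ⟨X₀, hX₀, X₁, hX₁, ?_, fun m => ?_⟩
    · rw [← sub_ne_zero, e2]
      refine mul_ne_zero hy0 ?_
      rw [Ne, map_eq_zero]
      exact sub_ne_zero.mpr hune
    · have e3 : aff (X₁ - X₀) X₀ f = (aff (u₁ - u₀) u₀ h).map (φ r) := by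
        rw [aff_map, hh, hF, aff_aff y x₀ _ _ hy0, e2, ← e₀']
      obtain ⟨z, hz⟩ := huc m
      refine ⟨z, ?_⟩
      rw [e3, coeff_map, hφ, ← hz, ← pow_mul, ← pow_succ']
  -- (c)
  let J : Finset ℕ := (Finset.Icc 1 r).filter (fun j => (Dd j).Nonempty)
  have hJ : J.card ≤ M := by
    refine hPB h (Cc 0) (by rw [← hj0]; exact hjd 0) (by rw [← hj0]; exact hisoj 0 (Nat.zero_le _))
      hC01.1 hC01.2 (by rw [← hj0]; exact hCst 0 (Nat.zero_le _)) J ?_
    intro j hjJ
    obtain ⟨hj1, hne⟩ := Finset.mem_filter.mp hjJ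
    rw [Finset.mem_Icc] at hj1
    obtain ⟨x, hx, m, hm, hmx⟩ := exists_per (fun z => (hj j).eval z) (Dd j)
      (hDst j hj1.1 hj1.2) hne
    exact ⟨hj1.1, hj j, x, m, fun i => by rw [coeff_map, hφ], (Finset.mem_filter.mp hx).2, hm, hmx⟩
  -- covering
  have hcov : P0 ⊆ (Cc 0).image (φ r) ∪ (Finset.Icc 1 r).biUnion
      (fun j => (Dd j).image (φ (r - j))) := by
    intro z hz
    by_cases hzr : ∃ w, w ^ p ^ r = z
    · obtain ⟨w, hw⟩ := hzr
      refine Finset.mem_union_left _ (Finset.mem_image.mpr ⟨w, ?_, by rw [hφ, hw]⟩)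
      rw [hCm, Nat.sub_zero, hφ, hw]
      exact hz
    · have h1 : ∃ i, i < r ∧ (∃ w, w ^ p ^ i = z) ∧ ¬ ∃ w, w ^ p ^ (i + 1) = z := by
        by_contra hall
        push Not at hall
        have h2 : ∀ i, i ≤ r → ∃ w, w ^ p ^ i = z := by
          intro i
          induction i with
          | zero => exact fun _ => ⟨z, by rw [pow_zero, pow_one]⟩
          | succ n ih =>
            intro hn
            exact hall n (by omega) (ih (by omega))
        exact hzr (h2 r le_rfl)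
      obtain ⟨i, hir, ⟨w, hw⟩, hni⟩ := h1
      refine Finset.mem_union_right _ (Finset.mem_biUnion.mpr ⟨r - i, ?_, ?_⟩)
      · rw [Finset.mem_Icc]; omega
      · have e1 : r - (r - i) = i := by omega
        refine Finset.mem_image.mpr ⟨w, ?_, by rw [hφ, e1, hw]⟩
        rw [Finset.mem_filter, hCm, e1, hφ, hw]
        refine ⟨hz, fun t ht => hni ⟨t, ?_⟩⟩
        rw [pow_succ', pow_mul, ht, hw]
  have hcount : P0.card ≤ (Cc 0).card + ∑ j ∈ J, (Dd j).card := by
    calc P0.card ≤ _ := Finset.card_le_card hcov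
      _ ≤ ((Cc 0).image (φ r)).card + ((Finset.Icc 1 r).biUnion
          (fun j => (Dd j).image (φ (r - j)))).card := Finset.card_union_le _ _
      _ ≤ (Cc 0).card + ∑ j ∈ Finset.Icc 1 r, ((Dd j).image (φ (r - j))).card :=
          Nat.add_le_add Finset.card_image_le Finset.card_biUnion_le
      _ ≤ (Cc 0).card + ∑ j ∈ Finset.Icc 1 r, (Dd j).card :=
          Nat.add_le_add_left (Finset.sum_le_sum fun j _ => Finset.card_image_le) _
      _ = (Cc 0).card + ∑ j ∈ J, (Dd j).card := by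
          congr 1
          symm
          refine Finset.sum_subset (Finset.filter_subset _ _) ?_
          intro j hj1 hj2
          rw [Finset.mem_filter] at hj2
          push Not at hj2
          rw [hj2 hj1, Finset.card_empty]
  have hsum : ∑ j ∈ J, (Dd j).card ≤ M * N := by
    calc ∑ j ∈ J, (Dd j).card ≤ ∑ j ∈ J, N := by
          refine Finset.sum_le_sum fun j hj => ?_
          have := (Finset.mem_filter.mp hj).1
          rw [Finset.mem_Icc] at this
          exact (ha j this.1 this.2).le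
      _ = J.card * N := by rw [Finset.sum_const, smul_eq_mul]
      _ ≤ M * N := Nat.mul_le_mul_right _ hJ
  have : P.card ≤ N + M * N := by omega
  nlinarith

end Pool.Agent.Y758.SB
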