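import Pool.Agent.Y706.SB.Stm
import Pool.Agent.W277.UD.Prim

/-!
# Project SB: few levels
-/

set_option autoImplicit false

namespace Pool.Agent.Y758.SB

open Polynomial Pool.Agent.Y706.SB Pool.Agent.TH951.W.UB Pool.Agent.W277.UD Finset PlaceData

universe u w

/-- comparison of two levels over one field -/
theorem core (hLEV : S_LEV.{u, w}) (hLB : S_LB.{u, w}) (p : ℕ) [hp : Fact p.Prime] (k : Type u)
    (K : Type w) [Field k] [IsAlgClosed k] [CharP k p] [Field K] [CharP K p] [Algebra k K]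
    [Algebra (RatFunc k) K] [IsScalarTower k (RatFunc k) K] [FiniteDimensional (RatFunc k) K]
    [Algebra.IsSeparable (RatFunc k) K] (n d : ℕ) (hn : Module.finrank (RatFunc k) K ≤ n)
    (hd2 : 2 ≤ d) (hdp : d < p)
    (Y : Set K) (hY : IntermediateField.adjoin (RatFunc k) Y = ⊤) (h : K[X]) (Z : Finset K)
    (hhd : h.natDegree = d) (h0 : 0 ∈ Z) (h1 : 1 ∈ Z) (hst : ∀ z ∈ Z, h.eval z ∈ Z)
    (hcon : ∃ m, ∀ c : k, algebraMap k K c ≠ h.coeff m)
    (hcY : ∀ m, h.coeff m ∈ Y)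
    (j j' : ℕ) (hj' : 1 ≤ j')
    (hYd : ∀ y ∈ Y, (∃ m, y = h.coeff m) ∨ y ∈ Z ∨ ∃ i, 1 ≤ i ∧ i ≤ j ∧ ∃ (g : K[X]) (m : ℕ),
      Tw p i h g ∧ 1 ≤ m ∧ (fun z => g.eval z)^[m] y = y)
    (g' : K[X]) (x' : K) (m' : ℕ) (hg' : Tw p j' h g') (hx' : ∀ y, y ^ p ≠ x') (hm' : 1 ≤ m')
    (hper : (fun z => g'.eval z)^[m'] x' = x') :
    p ^ j' ≤ (d - 1) * (2 * d * (8 * n ^ 3) + d ^ 2) * p ^ j := by
  classical
  obtain ⟨m0, hm0⟩ := hcon
  obtain ⟨u, huY, hugen, huc⟩ := exists_gen (k := k) (F := RatFunc k) (E := K) Y hY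
    (h.coeff m0) (hcY m0) (fun c hc => hm0 c hc.symm)
  obtain ⟨Q, hQD, hQ⟩ := hLB p k K u hugen huc
  obtain ⟨S, ρ, H, hH, hρ0, hρS, hρc, hρZ, hsum, hlev⟩ := hLEV p k K Q h d Z hhd hd2 hdp h0 h1 hst
    ⟨m0, hm0⟩
  have hp1 : (1 : ℝ) ≤ p := by exact_mod_cast hp.out.one_lt.le
  have hpj : (1 : ℝ) ≤ (p : ℝ) ^ j := one_le_pow₀ hp1
  have hq0 : ∀ v, 0 ≤ (p : ℝ) ^ j * ρ v := fun v => mul_nonneg (by positivity) (hρ0 v)
  have hle : ∀ v, ρ v ≤ (p : ℝ) ^ j * ρ v := fun v => le_mul_of_one_le_left (hρ0 v) hpj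
  have hgen : ∀ v, ∀ y ∈ Y, y ≠ 0 → -(Q.ord v y : ℝ) ≤ (p : ℝ) ^ j * ρ v := by
    intro v y hy hy0
    rcases hYd y hy with ⟨m, rfl⟩ | hz | ⟨i, hi1, hij, g, m, hg, hm, hgm⟩
    · exact (hρc v m hy0).trans (hle v)
    · exact (hρZ v y hz hy0).trans (hle v)
    · refine ((hlev i g y m hi1 hg hm hgm).1 v hy0).trans ?_
      exact mul_le_mul_of_nonneg_right (pow_le_pow_right₀ hp1 hij) (hρ0 v)
  have hu0 : u ≠ 0 := by
    have := huc 0
    rwa [map_zero] at this
  have hpole : ∀ v, (Q.pole v u : ℝ) ≤ (p : ℝ) ^ j * ρ v := by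
    intro v
    have h1 : Q.G v (-⌊(p : ℝ) ^ j * ρ v⌋) u := by
      have hspan : ∀ x : K, x ∈ Submodule.span k Y → Q.G v (-⌊(p : ℝ) ^ j * ρ v⌋) x := by
        intro x hx
        induction hx using Submodule.span_induction with
        | mem x hx =>
          intro hx0
          have h2 := hgen v x hx hx0
          have h3 : -Q.ord v x ≤ ⌊(p : ℝ) ^ j * ρ v⌋ := by
            rw [Int.le_floor]
            push_cast
            exact h2
          linarith
        | zero => exact G_zero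
        | add x y _ _ hx hy => exact G_add hx hy
        | smul c x _ hx =>
          rw [Algebra.smul_def]
          simpa using G_mul (G_alg (Q := Q) (v := v) c) hx
      exact hspan u huY
    have h2 := h1 hu0
    have h3 : Q.pole v u ≤ ⌊(p : ℝ) ^ j * ρ v⌋ := by
      rw [pole_of_ne hu0]
      apply max_le
      · rw [Int.le_floor]
        simpa using hq0 v
      · linarith
    calc (Q.pole v u : ℝ) ≤ (⌊(p : ℝ) ^ j * ρ v⌋ : ℝ) := by exact_mod_cast h3
      _ ≤ (p : ℝ) ^ j * ρ v := Int.floor_le _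
  have hT := hQ S (by
    intro v hv
    have h2 := hpole v
    rw [hρS v hv, mul_zero] at h2
    have h3 : Q.pole v u ≤ 0 := by exact_mod_cast h2
    exact le_antisymm h3 (pole_nonneg v u))
  have hT2 : (Q.lossT : ℝ) ≤ 8 * (Module.finrank (RatFunc k) K : ℝ) ^ 3 *
      ∑ v ∈ S, (Q.wt v : ℝ) * (Q.pole v u : ℝ) := by
    exact_mod_cast hT
  have hT3 : ∑ v ∈ S, (Q.wt v : ℝ) * (Q.pole v u : ℝ) ≤ (p : ℝ) ^ j * (2 * d * H) := by
    calc ∑ v ∈ S, (Q.wt v : ℝ) * (Q.pole v u : ℝ)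
        ≤ ∑ v ∈ S, (Q.wt v : ℝ) * ((p : ℝ) ^ j * ρ v) :=
          Finset.sum_le_sum fun v _ => mul_le_mul_of_nonneg_left (hpole v)
            (by exact_mod_cast Q.wt_nonneg v)
      _ = (p : ℝ) ^ j * ∑ v ∈ S, (Q.wt v : ℝ) * ρ v := by
          rw [Finset.mul_sum]
          exact Finset.sum_congr rfl fun v _ => by ring
      _ ≤ (p : ℝ) ^ j * (2 * d * H) := mul_le_mul_of_nonneg_left hsum (by positivity)
  have hfr : (Module.finrank (RatFunc k) K : ℝ) ≤ n := by exact_mod_cast hn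
  have hT4 : (Q.lossT : ℝ) ≤ 8 * (n : ℝ) ^ 3 * ((p : ℝ) ^ j * (2 * d * H)) := by
    refine hT2.trans ?_
    have h4 : (0 : ℝ) ≤ ∑ v ∈ S, (Q.wt v : ℝ) * (Q.pole v u : ℝ) :=
      Finset.sum_nonneg fun v _ => mul_nonneg (by exact_mod_cast Q.wt_nonneg v)
        (by exact_mod_cast pole_nonneg v u)
    refine mul_le_mul ?_ hT3 h4 (by positivity)
    have : (Module.finrank (RatFunc k) K : ℝ) ^ 3 ≤ (n : ℝ) ^ 3 :=
      pow_le_pow_left₀ (by positivity) hfr 3
    linarith
  have hDx : Q.D x' ≠ 0 := by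
    intro h2
    obtain ⟨y, hy⟩ := hQD x' h2
    exact hx' y hy
  have hlast := (hlev j' g' x' m' hj' hg' hm' hper).2 hDx
  have hd1 : (0 : ℝ) ≤ (d : ℝ) - 1 := by
    have : (2 : ℝ) ≤ d := by exact_mod_cast hd2
    linarith
  have hfin : (p : ℝ) ^ j' * H ≤
      (((d : ℝ) - 1) * (2 * d * (8 * (n : ℝ) ^ 3) + (d : ℝ) ^ 2) * (p : ℝ) ^ j) * H := by
    refine hlast.trans ?_
    have h5 : (Q.lossT : ℝ) + (d : ℝ) ^ 2 * H ≤
        (2 * d * (8 * (n : ℝ) ^ 3) + (d : ℝ) ^ 2) * (p : ℝ) ^ j * H := by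
      have h6 : (d : ℝ) ^ 2 * H ≤ (d : ℝ) ^ 2 * H * (p : ℝ) ^ j :=
        le_mul_of_one_le_right (by positivity) hpj
      nlinarith [hT4, h6]
    calc ((d : ℝ) - 1) * ((Q.lossT : ℝ) + (d : ℝ) ^ 2 * H) ≤ ((d : ℝ) - 1) *
        ((2 * d * (8 * (n : ℝ) ^ 3) + (d : ℝ) ^ 2) * (p : ℝ) ^ j * H) :=
          mul_le_mul_of_nonneg_left h5 hd1
      _ = _ := by ring
  have hfin2 := le_of_mul_le_mul_right hfin hH
  have hcast : ((p ^ j' : ℕ) : ℝ) ≤
      (((d - 1) * (2 * d * (8 * n ^ 3) + d ^ 2) * p ^ j : ℕ) : ℝ) := by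
    push_cast [Nat.cast_sub (by omega : 1 ≤ d)]
    exact hfin2
  exact_mod_cast hcast

theorem t_B (hLEV : S_LEV.{u, w}) (hLB : S_LB.{u, w}) : S_B.{u, w} := by
  classical
  refine ⟨fun n d => (n + 1) * (Nat.log 2 ((d - 1) * (2 * d * (8 * n ^ 3) + d ^ 2)) + 1), ?_⟩
  intro p hp k L _ _ _ _ _ _ _ _ _ _ n d hn hd2 hdp h Z hhd hiso h0 h1 hst J hJ
  have hJ' : ∀ j, ∃ (g : L[X]) (x : L) (m : ℕ), j ∈ J → 1 ≤ j ∧ Tw p j h g ∧
      (∀ y, y ^ p ≠ x) ∧ 1 ≤ m ∧ (fun z => g.eval z)^[m] x = x := by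
    intro j
    by_cases hj : j ∈ J
    · obtain ⟨h1, g, x, m, h2⟩ := hJ j hj
      exact ⟨g, x, m, fun _ => ⟨h1, h2⟩⟩
    · exact ⟨0, 0, 0, fun h => absurd h hj⟩
  choose g x m hg using hJ'
  let Y : ℕ → Set L := fun j => Set.range h.coeff ∪ ↑Z ∪ x '' {i | i ∈ J ∧ i ≤ j}
  let Kf : ℕ → IntermediateField (RatFunc k) L :=
    fun j => IntermediateField.adjoin (RatFunc k) (Y j)
  have hYmono : ∀ i j, i ≤ j → Y i ⊆ Y j := by
    intro i j hij
    refine Set.union_subset_union_right _ (Set.image_mono ?_)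
    rintro a ⟨ha, hai⟩
    exact ⟨ha, hai.trans hij⟩
  have hmono : ∀ i j, i ≤ j → Kf i ≤ Kf j := fun i j hij =>
    IntermediateField.adjoin.mono _ _ _ (hYmono i j hij)
  have claim : ∀ j ∈ J, ∀ j' ∈ J, j < j' → Kf j = Kf j' →
      p ^ j' ≤ (d - 1) * (2 * d * (8 * n ^ 3) + d ^ 2) * p ^ j := by
    intro j hj j' hj' hjj hK
    have hYK : ∀ y ∈ Y j, y ∈ Kf j := fun y hy => IntermediateField.subset_adjoin _ _ hy
    have hxj' : x j' ∈ Kf j := by
      rw [hK]
      exact IntermediateField.subset_adjoin _ _ (Or.inr ⟨j', ⟨hj', le_rfl⟩, rfl⟩)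
    obtain ⟨hK1, hhK⟩ : ∃ hK1 : (Kf j)[X], hK1.map (algebraMap (Kf j) L) = h := by
      rw [← Polynomial.mem_lifts, Polynomial.lifts_iff_coeff_lifts]
      intro i
      exact ⟨⟨h.coeff i, hYK _ (Or.inl (Or.inl ⟨i, rfl⟩))⟩, rfl⟩
    have hst' : IsScalarTower k (Kf j) L := IsScalarTower.of_algebraMap_eq fun c => rfl
    have hch : CharP (Kf j) p := charP_of_injective_algebraMap (algebraMap k (Kf j)).injective p
    have hex : ExpChar (Kf j) p := ExpChar.prime hp.out
    -- coefficients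
    have hcoe : ∀ i, ((hK1.coeff i : Kf j) : L) = h.coeff i := by
      intro i
      conv_rhs => rw [← hhK, coeff_map]
      rfl
    have hev : ∀ z : Kf j, ((hK1.eval z : Kf j) : L) = h.eval (z : L) := by
      intro z
      conv_rhs => rw [← hhK]
      exact (eval_map_apply (algebraMap (Kf j) L) z).symm
    -- twists
    have htw : ∀ i, Tw p i hK1 (hK1.map (iterateFrobenius (Kf j) p i)) := by
      intro i a
      rw [coeff_map, iterateFrobenius_def]
    have htg : ∀ i ∈ J, (hK1.map (iterateFrobenius (Kf j) p i)).map (algebraMap (Kf j) L) =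
        g i := by
      intro i hi
      ext a
      rw [coeff_map, coeff_map, iterateFrobenius_def, (hg i hi).2.1 a, map_pow]
      congr 1
      exact hcoe a
    have hper : ∀ i ∈ J, ∀ y : Kf j, (y : L) = x i →
        (fun z => (hK1.map (iterateFrobenius (Kf j) p i)).eval z)^[m i] y = y := by
      intro i hi y hy
      apply Subtype.ext
      have h2 : ∀ a, (((fun z => (hK1.map (iterateFrobenius (Kf j) p i)).eval z)^[a] y : Kf j) : L)
          = (fun z => (g i).eval z)^[a] (x i) := by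
        intro a
        induction a with
        | zero => exact hy
        | succ a ih =>
          rw [Function.iterate_succ_apply', Function.iterate_succ_apply', ← ih, ← htg i hi]
          exact (eval_map_apply (algebraMap (Kf j) L) _).symm
      rw [h2, (hg i hi).2.2.2.2, hy]
    let YK : Set (Kf j) := {y | (y : L) ∈ Y j}
    have hgenY : IntermediateField.adjoin (RatFunc k) YK = ⊤ := by
      apply IntermediateField.lift_injective
      rw [IntermediateField.lift_adjoin, IntermediateField.lift_top]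
      have h1 : (Subtype.val : Kf j → L) '' YK = Y j := by
        ext z
        constructor
        · rintro ⟨y, hy, rfl⟩
          exact hy
        · intro hz
          exact ⟨⟨z, hYK z hz⟩, hz, rfl⟩
      rw [h1]
    refine core hLEV hLB p k (Kf j) n d
      (le_trans (Submodule.finrank_le (Kf j).toSubalgebra.toSubmodule) hn) hd2 hdp YK hgenY hK1
      (Z.subtype (fun z => z ∈ Kf j)) ?_ ?_ ?_ ?_ ?_ ?_ j j' (hg j' hj').1 ?_
      (hK1.map (iterateFrobenius (Kf j) p j')) ⟨x j', hxj'⟩ (m j') (htw j') ?_ (hg j' hj').2.2.2.1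
      (hper j' hj' _ rfl)
    · rw [← hhd, ← hhK, natDegree_map]
    · rw [Finset.mem_subtype]; exact h0
    · rw [Finset.mem_subtype]; exact h1
    · intro z hz
      rw [Finset.mem_subtype] at hz ⊢
      rw [hev]
      exact hst _ hz
    · by_contra hcon
      push Not at hcon
      apply hiso
      refine ⟨1, 0, one_ne_zero, fun i => ?_⟩
      obtain ⟨c, hc⟩ := hcon i
      refine ⟨c, ?_⟩
      have e1 : aff (1 : L) 0 h = h := by
        unfold aff
        simp
      rw [e1, ← hcoe i, ← hc]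
      rfl
    · intro i
      show ((hK1.coeff i : Kf j) : L) ∈ Y j
      rw [hcoe]
      exact Or.inl (Or.inl ⟨i, rfl⟩)
    · intro y hy
      have hy' : (y : L) ∈ Y j := hy
      rcases hy' with (⟨i, hi⟩ | hz) | ⟨i, ⟨hiJ, hij⟩, hi⟩
      · left
        exact ⟨i, Subtype.ext (by rw [hcoe, hi])⟩
      · right; left
        rw [Finset.mem_subtype]
        exact hz
      · right; right
        exact ⟨i, (hg i hiJ).1, hij, _, m i, htw i, (hg i hiJ).2.2.2.1, hper i hiJ y hi.symm⟩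
    · intro y hy
      apply (hg j' hj').2.2.1 (y : L)
      have := congrArg (Subtype.val) hy
      simpa using this
  -- counting
  set c0 := (d - 1) * (2 * d * (8 * n ^ 3) + d ^ 2) with hc0
  have hgap : ∀ j ∈ J, ∀ j' ∈ J, j < j' →
      Module.finrank (RatFunc k) (Kf j) = Module.finrank (RatFunc k) (Kf j') →
      j' - j ≤ Nat.log 2 c0 := by
    intro j hj j' hj' hjj hfr
    have hK := IntermediateField.eq_of_le_of_finrank_eq (hmono j j' hjj.le) hfr
    have h2 := claim j hj j' hj' hjj hK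
    have h3 : p ^ (j' - j) ≤ c0 := by
      have h4 : p ^ j' = p ^ (j' - j) * p ^ j := by
        rw [← pow_add, Nat.sub_add_cancel hjj.le]
      rw [h4] at h2
      exact Nat.le_of_mul_le_mul_right h2 (pow_pos hp.out.pos j)
    have h4 : 2 ^ (j' - j) ≤ c0 := le_trans (Nat.pow_le_pow_left hp.out.two_le _) h3
    have h5 := Nat.lt_pow_succ_log_self (b := 2) (by norm_num) c0
    have h6 := (Nat.pow_lt_pow_iff_right (by norm_num : 1 < 2)).mp (lt_of_le_of_lt h4 h5)
    omega
  have hcard := Finset.card_le_mul_card_image_of_maps_to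
    (f := fun j => Module.finrank (RatFunc k) (Kf j)) (s := J) (t := Finset.range (n + 1))
    (fun j _ => by
      rw [Finset.mem_range]
      have := Submodule.finrank_le (Kf j).toSubalgebra.toSubmodule
      have h3 : Module.finrank (RatFunc k) (Kf j) ≤ n := le_trans this hn
      omega) (Nat.log 2 c0 + 1) (by
      intro b _
      by_cases hne : (J.filter fun j => Module.finrank (RatFunc k) (Kf j) = b).Nonempty
      · set T := J.filter fun j => Module.finrank (RatFunc k) (Kf j) = b with hT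
        have hmin := T.min'_mem hne
        have hsub : T ⊆ Finset.Icc (T.min' hne) (T.min' hne + Nat.log 2 c0) := by
          intro j hj
          have hle := T.min'_le j hj
          rw [Finset.mem_Icc]
          refine ⟨hle, ?_⟩
          rcases hle.eq_or_lt with h2 | h2
          · omega
          · have h3 := Finset.mem_filter.mp hmin
            have h4 := Finset.mem_filter.mp hj
            have h5 := hgap _ h3.1 j h4.1 h2 (h3.2.trans h4.2.symm)
            omega
        refine (Finset.card_le_card hsub).trans ?_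
        rw [Nat.card_Icc]
        omega
      · rw [Finset.not_nonempty_iff_eq_empty] at hne
        rw [hne, Finset.card_empty]
        omega)
  rw [Finset.card_range] at hcard
  show J.card ≤ (n + 1) * (Nat.log 2 c0 + 1)
  rw [mul_comm]
  exact hcard

end Pool.Agent.Y758.SB
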